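import Mathlib
import Pool.Agent.H22.Jac

set_option autoImplicit false

namespace Pool.Agent.Results.MP_c8c065_al.RadicalNil

open Polynomial

theorem dvd_of_pow {D : Type*} [CommRing D] [IsDomain D] (x : D) (hx : x ≠ 0) (i : ℕ)
    (h : (1 + x) ^ i = 1) : x ∣ (i : D) := by
  have key : ∀ n : ℕ, ∃ t : D, (1 + x) ^ n = 1 + n * x + x ^ 2 * t := by
    intro n
    induction n with
    | zero => exact ⟨0, by simp⟩
    | succ n ih =>
      obtain ⟨t, ht⟩ := ih
      exact ⟨n + t + x * t, by rw [pow_succ, ht]; push_cast; ring⟩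
  obtain ⟨t, ht⟩ := key i
  have h2 : x * ((i : D) + x * t) = 0 := by
    rw [h] at ht
    linear_combination -ht
  have h3 := (mul_eq_zero.1 h2).resolve_left hx
  exact ⟨-t, by linear_combination h3⟩

theorem unit_of_pow {D : Type*} [CommRing D] [IsDomain D] (p : ℕ) [Fact p.Prime] [CharP D p]
    (x : D) (hx : x ≠ 0) : ∀ i : ℕ, 1 ≤ i → (1 + x) ^ i = 1 → IsUnit x := by
  intro i
  induction i using Nat.strong_induction_on with
  | _ i ih =>
    intro hi h
    by_cases hp : p ∣ i
    · obtain ⟨j, rfl⟩ := hp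
      have hp2 : 2 ≤ p := (Fact.out : p.Prime).two_le
      have hj : 1 ≤ j := by
        rcases Nat.eq_zero_or_pos j with rfl | h0
        · simp at hi
        · exact h0
      refine ih j (by nlinarith) hj ?_
      have h1 : ((1 + x) ^ j - 1) ^ p = 0 := by
        rw [sub_pow_char, ← pow_mul, mul_comm j p, h]; simp
      exact sub_eq_zero.1 (pow_eq_zero_iff (by omega) |>.1 h1)
    · have hu : IsUnit (i : D) := by
        have hc : Nat.Coprime i p := ((Nat.Prime.coprime_iff_not_dvd Fact.out).2 hp).symm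
        obtain ⟨m, hm⟩ := Nat.exists_mul_mod_eq_one_of_coprime hc (Fact.out : p.Prime).one_lt
        have : ((i * m : ℕ) : D) = 1 := by
          rw [← Nat.div_add_mod (i * m) p, hm.2]
          push_cast
          simp
        push_cast at this
        exact IsUnit.of_mul_eq_one _ this
      exact isUnit_of_dvd_unit (dvd_of_pow x hx i h) hu

theorem core {D : Type*} [CommRing D] [IsDomain D] (x : D) (hx : x ≠ 0)
    (h : ∀ s : D, ∃ i : ℕ, 1 ≤ i ∧ (1 + x * s) ^ i = 1) : False := by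
  obtain ⟨i, hi, h1⟩ := h 1
  rw [mul_one] at h1
  obtain ⟨s, hs⟩ := dvd_of_pow x hx i h1
  obtain ⟨k, hk, h2⟩ := h s
  rw [← hs] at h2
  obtain ⟨p, hp⟩ := CharP.exists D
  rcases CharP.char_is_prime_or_zero D p with hpp | rfl
  · have := Fact.mk hpp
    obtain ⟨u, hu⟩ := unit_of_pow p x hx i hi h1
    obtain ⟨m, hm, h3⟩ := h (-(↑u⁻¹ : D))
    rw [← hu] at h3
    simp only [mul_neg, Units.mul_inv, add_neg_cancel] at h3
    rw [zero_pow (by omega)] at h3
    exact zero_ne_one h3
  · have := CharP.charP_to_charZero D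
    have h4 : ((1 + i) ^ k : ℕ) = 1 := by exact_mod_cast h2
    have : 1 < (1 + i) ^ k := Nat.one_lt_pow (by omega) (by omega)
    omega

/-- The Jacobson radical of a π-UU ring is nil. -/
theorem result (R : Type*) [Ring R]
    (hR : ∀ u : Rˣ, ∃ i : ℕ, 1 ≤ i ∧ IsNilpotent ((u : R) ^ i - 1))
    (j : R) (hj : j ∈ Ring.jacobson R) : IsNilpotent j := by
  let φ : ℤ[X] →+* R := (aeval j : ℤ[X] →ₐ[ℤ] R).toRingHom
  have hφX : φ X = j := by simp [φ]
  have hrad : (X : ℤ[X]) ∈ (RingHom.ker φ).radical := by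
    rw [Ideal.radical_eq_sInf, Submodule.mem_sInf]
    rintro P ⟨hP, hprime⟩
    by_contra hX
    have := hprime
    refine core (Ideal.Quotient.mk P X) (fun h => hX (Ideal.Quotient.eq_zero_iff_mem.1 h)) ?_
    intro s
    obtain ⟨s, rfl⟩ := Ideal.Quotient.mk_surjective s
    have hu : IsUnit (1 + φ s * j) :=
      Pool.Agent.H22.Jac.isUnit_one_add (Ideal.mul_mem_left _ _ hj)
    obtain ⟨u, hu⟩ := hu
    obtain ⟨i, hi, n, hn⟩ := hR u
    refine ⟨i, hi, ?_⟩
    have h1 : ((1 + X * s) ^ i - 1) ^ n ∈ P := by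
      apply hP
      rw [RingHom.mem_ker, mul_comm X s]
      simp only [map_pow, map_sub, map_add, map_one, map_mul, hφX]
      rw [← hu]; exact hn
    have h2 := hprime.mem_of_pow_mem _ h1
    have h3 := Ideal.Quotient.eq_zero_iff_mem.2 h2
    simpa [sub_eq_zero] using h3
  obtain ⟨n, hn⟩ := hrad
  refine ⟨n, ?_⟩
  rw [RingHom.mem_ker, map_pow, hφX] at hn
  exact hn

end Pool.Agent.Results.MP_c8c065_al.RadicalNil
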